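import Mathlib

namespace Pool.Agent.Results.MP_64a7c6_pr.Sums

open Finset Filter

/-- standard Young tableaux of shape `μ` -/
def SYT (μ : YoungDiagram) : Type :=
  {T : SemistandardYoungTableau μ //
    Set.BijOn (fun c : ℕ × ℕ => T c.1 c.2) μ.cells (Set.Iio μ.card)}

/-- Plancherel probability that the first `r` rows have total length `j` -/
noncomputable def prob (n r j : ℕ) : ℝ :=
  ∑ᶠ μ ∈ {μ : YoungDiagram | μ.card = n ∧ ∑ i ∈ range r, μ.rowLen i = j},
    (Nat.card (SYT μ) : ℝ) ^ 2 / n.factorial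

theorem lt_card (μ : YoungDiagram) {i j : ℕ} (h : (i, j) ∈ μ) : i < μ.card ∧ j < μ.card := by
  constructor
  · refine (μ.mem_iff_lt_colLen.1 h).trans_le ?_
    rw [μ.colLen_eq_card]
    exact card_le_card (filter_subset _ _)
  · refine (μ.mem_iff_lt_rowLen.1 h).trans_le ?_
    rw [μ.rowLen_eq_card]
    exact card_le_card (filter_subset _ _)

theorem fin_diag (n : ℕ) : {μ : YoungDiagram | μ.card = n}.Finite := by
  refine Set.Finite.of_finite_image (f := YoungDiagram.cells)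
    ((range n ×ˢ range n).powerset.finite_toSet.subset ?_) (fun a _ b _ h => YoungDiagram.ext h)
  rintro _ ⟨μ, hμ, rfl⟩
  simp only [coe_powerset, Set.mem_preimage, Set.mem_powerset_iff]
  rintro ⟨i, j⟩ h
  have := lt_card μ (by simpa using h)
  simp only [Set.mem_ofPred_eq] at hμ
  simpa [hμ] using this

theorem val_lt (μ : YoungDiagram) (T : SYT μ) (i j : ℕ) : T.1 i j < μ.card + 1 := by
  by_cases h : (i, j) ∈ μ
  · exact Nat.lt_succ_of_lt (T.2.mapsTo (x := (i, j)) (by simpa using h))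
  · rw [T.1.zeros h]; omega

instance (μ : YoungDiagram) : Finite (SYT μ) := by
  refine Finite.of_injective (fun (T : SYT μ) (c : Fin μ.card × Fin μ.card) =>
    (⟨T.1 c.1 c.2, val_lt μ T _ _⟩ : Fin (μ.card + 1))) fun T T' h => ?_
  refine Subtype.ext (SemistandardYoungTableau.ext fun i j => ?_)
  by_cases hc : (i, j) ∈ μ
  · have := congrFun h (⟨i, (lt_card μ hc).1⟩, ⟨j, (lt_card μ hc).2⟩)
    simpa using this
  · rw [T.1.zeros hc, T'.1.zeros hc]

theorem col_sub (μ : YoungDiagram) (T T' : SYT μ) (h : ∀ i j, 1 ≤ j → T.1 i j = T'.1 i j) :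
    Set.range (fun i : Fin (μ.colLen 0) => T.1 i 0) ⊆
      Set.range (fun i : Fin (μ.colLen 0) => T'.1 i 0) := by
  rintro _ ⟨i, rfl⟩
  have hi : ((i : ℕ), 0) ∈ (μ.cells : Set (ℕ × ℕ)) := by
    simpa using μ.mem_iff_lt_colLen.2 i.2
  obtain ⟨⟨a, b⟩, hc, e⟩ := T'.2.surjOn (T.2.mapsTo hi)
  rcases Nat.eq_zero_or_pos b with rfl | hb
  · exact ⟨⟨a, μ.mem_iff_lt_colLen.1 (by simpa using hc)⟩, e⟩
  · have e' : T.1 a b = T.1 i 0 := (h a b hb).trans e
    have := T.2.injOn hc hi e'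
    simp at this
    omega

theorem syt_ext (μ : YoungDiagram) (T T' : SYT μ) (h : ∀ i j, 1 ≤ j → T.1 i j = T'.1 i j) :
    T = T' := by
  have hm : ∀ U : SYT μ, StrictMono (fun i : Fin (μ.colLen 0) => U.1 i 0) := fun U a b hab =>
    U.1.col_strict hab (μ.mem_iff_lt_colLen.2 b.2)
  have e := (StrictMono.range_inj (hm T) (hm T')).1
    ((col_sub μ T T' h).antisymm (col_sub μ T' T fun i j hj => (h i j hj).symm))
  refine Subtype.ext (SemistandardYoungTableau.ext fun i j => ?_)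
  rcases Nat.eq_zero_or_pos j with rfl | hj
  · by_cases hc : (i, 0) ∈ μ
    · exact congrFun e ⟨i, μ.mem_iff_lt_colLen.1 hc⟩
    · rw [T.1.zeros hc, T'.1.zeros hc]
  · exact h i j hj

theorem box (μ : YoungDiagram) (r s : ℕ) (hs : s < 2 * r) (h : ∑ i ∈ range r, μ.rowLen i = s)
    {i j : ℕ} (hj : 1 ≤ j) (hc : (i, j) ∈ μ) : i < r ∧ j < 2 * r := by
  have h1 := μ.mem_iff_lt_rowLen.1 hc
  have hi : i < r := by
    by_contra hi
    have : ∑ _k ∈ range r, 2 ≤ ∑ k ∈ range r, μ.rowLen k := sum_le_sum fun k hk => by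
      have := μ.rowLen_anti k i (by simp at hk; omega)
      omega
    simp at this
    omega
  have := single_le_sum (f := μ.rowLen) (fun _ _ => Nat.zero_le _) (mem_range.2 hi)
  omega

theorem syt_le (μ : YoungDiagram) (r s : ℕ) (hs : s < 2 * r)
    (h : ∑ i ∈ range r, μ.rowLen i = s) : Nat.card (SYT μ) ≤ (μ.card + 1) ^ (r * (2 * r)) := by
  have := Nat.card_le_card_of_injective (fun (T : SYT μ) (c : Fin r × Fin (2 * r)) =>
    (⟨T.1 c.1 c.2, val_lt μ T _ _⟩ : Fin (μ.card + 1))) fun T T' e => by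
      refine syt_ext μ T T' fun i j hj => ?_
      by_cases hc : (i, j) ∈ μ
      · have hb := box μ r s hs h hj hc
        simpa using congrFun e (⟨i, hb.1⟩, ⟨j, hb.2⟩)
      · rw [T.1.zeros hc, T'.1.zeros hc]
  simpa using this

theorem count_le (n r s : ℕ) (hs : s < 2 * r) (F : Finset YoungDiagram)
    (hF : ∀ μ ∈ F, μ.card = n ∧ ∑ i ∈ range r, μ.rowLen i = s) :
    F.card ≤ (n + 1) * 2 ^ (r * (2 * r)) := by
  have := card_le_card_of_injOn (s := F) (t := range (n + 1) ×ˢ (range r ×ˢ range (2 * r)).powerset)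
    (fun μ => (μ.colLen 0, μ.cells.filter fun c => 1 ≤ c.2)) (fun μ hμ => by
      simp only [coe_product, Set.mem_prod, mem_coe, mem_range, mem_powerset]
      constructor
      · rw [μ.colLen_eq_card, ← (hF μ hμ).1]
        exact Nat.lt_succ_of_le (card_le_card (filter_subset _ _))
      · rintro ⟨i, j⟩ hc
        rw [mem_filter] at hc
        simpa using box μ r s hs (hF μ hμ).2 hc.2 (by simpa using hc.1))
    (fun μ _ ν _ e => by
      simp only [Prod.mk.injEq] at e
      refine YoungDiagram.ext (Finset.ext fun ⟨i, j⟩ => ?_)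
      rcases Nat.eq_zero_or_pos j with rfl | hj
      · simp only [YoungDiagram.mem_cells, YoungDiagram.mem_iff_lt_colLen, e.1]
      · have := Finset.ext_iff.1 e.2 (i, j)
        simp only [mem_filter] at this
        exact ⟨fun h => (this.1 ⟨h, hj⟩).1, fun h => (this.2 ⟨h, hj⟩).1⟩)
  simpa using this

/-- two-column diagrams -/
def D (a b : ℕ) (h : b ≤ a) : YoungDiagram where
  cells := range a ×ˢ {0} ∪ range b ×ˢ {1}
  isLowerSet := by
    rintro ⟨i, j⟩ ⟨k, l⟩ hle hc
    simp only [Prod.mk_le_mk] at hle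
    simp only [coe_union, coe_product, Set.mem_union, Set.mem_prod, mem_coe, mem_range,
      mem_singleton] at hc ⊢
    omega

theorem mem_D {a b : ℕ} {h : b ≤ a} {i j : ℕ} :
    (i, j) ∈ D a b h ↔ (i < a ∧ j = 0) ∨ (i < b ∧ j = 1) := by
  rw [← YoungDiagram.mem_cells]
  simp only [D, mem_union, mem_product, mem_range, mem_singleton]

theorem card_D (a b : ℕ) (h : b ≤ a) : (D a b h).card = a + b := by
  show (range a ×ˢ ({0} : Finset ℕ) ∪ range b ×ˢ {1}).card = a + b
  rw [card_union_of_disjoint]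
  · simp
  · rw [disjoint_left]
    rintro ⟨i, j⟩ h1 h2
    simp at h1 h2
    omega

theorem row_D (a b : ℕ) (h : b ≤ a) (i : ℕ) (hi : i < a) :
    (D a b h).rowLen i = 1 + if i < b then 1 else 0 := by
  apply eq_of_forall_lt_iff
  intro j
  rw [← YoungDiagram.mem_iff_lt_rowLen, mem_D]
  split_ifs <;> omega

theorem sum_D (a b : ℕ) (h : b ≤ a) (r : ℕ) (hr : r ≤ a) :
    ∑ i ∈ range r, (D a b h).rowLen i = r + min r b := by
  induction r with
  | zero => simp
  | succ r ih =>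
    rw [sum_range_succ, ih (by omega), row_D a b h r (by omega)]
    split_ifs <;> omega

def T0 (a b : ℕ) (h : b ≤ a) : SYT (D a b h) :=
  ⟨⟨fun i j => if (i < a ∧ j = 0) then i else if (i < b ∧ j = 1) then a + i else 0,
    fun {i j k} h1 h2 => by rw [mem_D] at h2; split_ifs <;> omega,
    fun {i j k} h1 h2 => by rw [mem_D] at h2; split_ifs <;> omega,
    fun {i j} h2 => by rw [mem_D] at h2; split_ifs <;> omega⟩, by
    rw [card_D]
    refine ⟨?_, ?_, ?_⟩
    · rintro ⟨i, j⟩ hc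
      rw [mem_coe, YoungDiagram.mem_cells, mem_D] at hc
      show (if (i < a ∧ j = 0) then i else if (i < b ∧ j = 1) then a + i else 0) < a + b
      split_ifs <;> omega
    · rintro ⟨i, j⟩ hc ⟨k, l⟩ hd e
      rw [mem_coe, YoungDiagram.mem_cells, mem_D] at hc hd
      change (if (i < a ∧ j = 0) then i else if (i < b ∧ j = 1) then a + i else 0) =
        (if (k < a ∧ l = 0) then k else if (k < b ∧ l = 1) then a + k else 0) at e
      rw [Prod.mk.injEq]
      split_ifs at e <;> omega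
    · intro x hx
      rw [Set.mem_Iio] at hx
      by_cases hxa : x < a
      · refine ⟨(x, 0), by rw [mem_coe, YoungDiagram.mem_cells, mem_D]; omega, ?_⟩
        show (if (x < a ∧ 0 = 0) then x else if (x < b ∧ 0 = 1) then a + x else 0) = x
        split_ifs <;> omega
      · refine ⟨(x - a, 1), by rw [mem_coe, YoungDiagram.mem_cells, mem_D]; omega, ?_⟩
        show (if (x - a < a ∧ 1 = 0) then x - a else if (x - a < b ∧ 1 = 1) then a + (x - a)
          else 0) = x
        rw [if_neg (by omega), if_pos (by omega)]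
        omega⟩

def e (m : ℕ) (s : Finset ℕ) (i j : ℕ) : ℕ :=
  if i < m ∧ j = 0 then (if i ∈ s then 2 * i - 1 else 2 * i)
  else if i < m ∧ j = 1 then (if i + 1 ∈ s then 2 * i + 2 else 2 * i + 1) else 0

def T1 (m : ℕ) (s : Finset ℕ) (hs : s ⊆ Ico 1 m) : SYT (D m m le_rfl) :=
  ⟨⟨e m s,
    fun {i j k} h1 h2 => by rw [mem_D] at h2; unfold e; split_ifs <;> omega,
    fun {i j k} h1 h2 => by rw [mem_D] at h2; unfold e; split_ifs <;> omega,
    fun {i j} h2 => by rw [mem_D] at h2; unfold e; split_ifs <;> omega⟩, by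
    rw [card_D]
    have hs' : ∀ i ∈ s, 1 ≤ i ∧ i < m := fun i hi => mem_Ico.1 (hs hi)
    refine ⟨?_, ?_, ?_⟩
    · rintro ⟨i, j⟩ hc
      rw [mem_coe, YoungDiagram.mem_cells, mem_D] at hc
      show e m s i j < m + m
      have := hs' (i + 1)
      unfold e
      split_ifs with h1 h2 h3 h4 <;> first | omega | (have := this h4; omega)
    · rintro ⟨i, j⟩ hc ⟨k, l⟩ hd h
      rw [mem_coe, YoungDiagram.mem_cells, mem_D] at hc hd
      change e m s i j = e m s k l at h
      rw [Prod.mk.injEq]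
      have h1 := hs' i
      have h2 := hs' k
      have h3 : i = k + 1 → (i ∈ s ↔ k + 1 ∈ s) := fun h => by rw [h]
      have h4 : k = i + 1 → (k ∈ s ↔ i + 1 ∈ s) := fun h => by rw [h]
      unfold e at h
      by_cases a1 : i ∈ s <;> by_cases a2 : k ∈ s <;> by_cases a3 : i + 1 ∈ s <;>
        by_cases a4 : k + 1 ∈ s <;> simp only [a1, a2, a3, a4, if_true, if_false, forall_true_left,
          iff_true, iff_false, not_true, imp_false,
          false_imp_iff] at h h1 h2 h3 h4 <;> split_ifs at h <;> omega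
    · intro x hx
      rw [Set.mem_Iio] at hx
      obtain ⟨i, rfl | rfl⟩ := Nat.even_or_odd' x
      · by_cases hi : i ∈ s
        · have := hs' i hi
          refine ⟨(i - 1, 1), by rw [mem_coe, YoungDiagram.mem_cells, mem_D]; omega, ?_⟩
          show e m s (i - 1) 1 = 2 * i
          unfold e
          rw [show i - 1 + 1 = i by omega, if_neg (by omega), if_pos (by omega), if_pos hi]
          omega
        · refine ⟨(i, 0), by rw [mem_coe, YoungDiagram.mem_cells, mem_D]; omega, ?_⟩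
          show e m s i 0 = 2 * i
          unfold e
          split_ifs <;> omega
      · by_cases hi : i + 1 ∈ s
        · have := hs' _ hi
          refine ⟨(i + 1, 0), by rw [mem_coe, YoungDiagram.mem_cells, mem_D]; omega, ?_⟩
          show e m s (i + 1) 0 = 2 * i + 1
          unfold e
          split_ifs <;> omega
        · refine ⟨(i, 1), by rw [mem_coe, YoungDiagram.mem_cells, mem_D]; omega, ?_⟩
          show e m s i 1 = 2 * i + 1
          unfold e
          rw [if_neg (by omega), if_pos (by omega), if_neg hi]⟩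

theorem syt_ge (m : ℕ) : 2 ^ (m - 1) ≤ Nat.card (SYT (D m m le_rfl)) := by
  have := Nat.card_le_card_of_injective
    (fun s : (Ico 1 m).powerset => T1 m s.1 (mem_powerset.1 s.2)) fun s t h => by
      refine Subtype.ext (Finset.ext fun i => ?_)
      have h1 : e m s.1 i 0 = e m t.1 i 0 := congrArg (fun T : SYT _ => T.1 i 0) h
      have h2 : i ∈ s.1 → 1 ≤ i ∧ i < m := fun h => mem_Ico.1 (mem_powerset.1 s.2 h)
      have h3 : i ∈ t.1 → 1 ≤ i ∧ i < m := fun h => mem_Ico.1 (mem_powerset.1 t.2 h)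
      unfold e at h1
      constructor
      · intro a1
        by_contra a2
        have := h2 a1
        rw [if_pos (by omega), if_pos a1, if_pos (by omega), if_neg a2] at h1
        omega
      · intro a1
        by_contra a2
        have := h3 a1
        rw [if_pos (by omega), if_neg a2, if_pos (by omega), if_pos a1] at h1
        omega
  rwa [Nat.card_eq_fintype_card, Fintype.card_coe, card_powerset, Nat.card_Ico] at this

theorem prob_eq (n r j : ℕ) : ∃ F : Finset YoungDiagram,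
    (∀ μ, μ ∈ F ↔ μ.card = n ∧ ∑ i ∈ range r, μ.rowLen i = j) ∧
    prob n r j = ∑ μ ∈ F, (Nat.card (SYT μ) : ℝ) ^ 2 / n.factorial := by
  have hf : {μ : YoungDiagram | μ.card = n ∧ ∑ i ∈ range r, μ.rowLen i = j}.Finite :=
    (fin_diag n).subset fun _ h => h.1
  exact ⟨hf.toFinset, fun μ => by simp, finsum_mem_eq_finite_toFinset_sum _ hf⟩

theorem prob_ge (n r j : ℕ) (μ : YoungDiagram) (h1 : μ.card = n)
    (h2 : ∑ i ∈ range r, μ.rowLen i = j) (k : ℕ) (hk : k ≤ Nat.card (SYT μ)) :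
    (k : ℝ) ^ 2 / n.factorial ≤ prob n r j := by
  obtain ⟨F, hF, e⟩ := prob_eq n r j
  rw [e]
  refine le_trans ?_ (single_le_sum (f := fun μ => (Nat.card (SYT μ) : ℝ) ^ 2 / n.factorial)
    (fun _ _ => by positivity) ((hF μ).2 ⟨h1, h2⟩))
  have : (k : ℝ) ≤ Nat.card (SYT μ) := by exact_mod_cast hk
  gcongr

theorem prob_le (n r j : ℕ) (hj : j < 2 * r) : 0 ≤ prob n r j ∧ prob n r j ≤
    ((n + 1) * 2 ^ (r * (2 * r)) * ((n + 1) ^ (r * (2 * r))) ^ 2 : ℝ) / n.factorial := by
  obtain ⟨F, hF, e⟩ := prob_eq n r j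
  rw [e]
  refine ⟨sum_nonneg fun _ _ => by positivity, ?_⟩
  have h1 : ∑ μ ∈ F, (Nat.card (SYT μ) : ℝ) ^ 2 / n.factorial ≤
      F.card • ((((n + 1) ^ (r * (2 * r))) ^ 2 : ℝ) / n.factorial) :=
    sum_le_card_nsmul _ _ _ fun μ hμ => by
      have h := syt_le μ r j hj ((hF μ).1 hμ).2
      rw [((hF μ).1 hμ).1] at h
      have : (Nat.card (SYT μ) : ℝ) ≤ (n + 1) ^ (r * (2 * r)) := by exact_mod_cast h
      gcongr
  have h2 : (F.card : ℝ) ≤ (n + 1) * 2 ^ (r * (2 * r)) := by
    exact_mod_cast count_le n r j hj F fun μ hμ => (hF μ).1 hμ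
  rw [nsmul_eq_mul] at h1
  rw [mul_div_assoc]
  refine h1.trans ?_
  gcongr

theorem growth (C : ℝ) (K : ℕ) : ∀ᶠ m : ℕ in atTop, C * (m : ℝ) ^ K < 2 ^ m := by
  have h := (tendsto_pow_const_div_const_pow_of_one_lt K (one_lt_two (α := ℝ))).const_mul C
  rw [mul_zero] at h
  filter_upwards [h.eventually (gt_mem_nhds one_pos)] with m hm
  rw [← mul_div_assoc, div_lt_one (by positivity)] at hm
  exact hm

theorem result (r : ℕ) (hr : 2 ≤ r) : ∀ᶠ m : ℕ in atTop,
    prob (2 * m) r (2 * r - 1) ^ 2 < prob (2 * m) r (2 * r - 2) * prob (2 * m) r (2 * r) := by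
  obtain ⟨K, hK⟩ : ∃ K, K = r * (2 * r) := ⟨_, rfl⟩
  filter_upwards [growth (2 * 2 ^ K * 3 ^ (2 * K + 1)) (2 * K + 1), eventually_ge_atTop r]
    with m hm hmr
  have h1 := prob_ge (2 * m) r (2 * r - 2) (D (2 * m - (r - 2)) (r - 2) (by omega))
    (by rw [card_D]; omega) (by rw [sum_D _ _ _ _ (by omega)]; omega) 1
    (by have : Nonempty (SYT (D (2 * m - (r - 2)) (r - 2) (by omega))) := ⟨T0 _ _ _⟩
        exact Nat.card_pos)
  have h2 := prob_ge (2 * m) r (2 * r) (D m m le_rfl) (by rw [card_D]; omega)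
    (by rw [sum_D _ _ _ _ hmr]; omega) _ (syt_ge m)
  obtain ⟨h0, h3⟩ := prob_le (2 * m) r (2 * r - 1) (by omega)
  rw [← hK] at h3
  have hf : (0 : ℝ) < (2 * m).factorial := by positivity
  have hm1 : (1 : ℝ) ≤ m := by exact_mod_cast (by omega : 1 ≤ m)
  have h4 : (((2 * m : ℕ) : ℝ) + 1) * 2 ^ K * ((((2 * m : ℕ) : ℝ) + 1) ^ K) ^ 2 < 2 ^ (m - 1) := by
    have e1 : (2 : ℝ) ^ m = 2 * 2 ^ (m - 1) := by
      rw [← pow_succ', show m - 1 + 1 = m by omega]
    have e2 : (((2 * m : ℕ) : ℝ) + 1) ≤ 3 * m := by push_cast; linarith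
    have e3 : (((2 * m : ℕ) : ℝ) + 1) * 2 ^ K * ((((2 * m : ℕ) : ℝ) + 1) ^ K) ^ 2 ≤
        (3 * m) * 2 ^ K * (((3 * m : ℝ)) ^ K) ^ 2 := by gcongr
    have e4 : (3 * m) * 2 ^ K * (((3 * m : ℝ)) ^ K) ^ 2 =
        2 ^ K * 3 ^ (2 * K + 1) * (m : ℝ) ^ (2 * K + 1) := by ring
    linarith
  have h5 : prob (2 * m) r (2 * r - 1) < 2 ^ (m - 1) / (2 * m).factorial :=
    h3.trans_lt (div_lt_div_of_pos_right h4 hf)
  calc prob (2 * m) r (2 * r - 1) ^ 2 < (2 ^ (m - 1) / (2 * m).factorial) ^ 2 := by gcongr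
    _ = (((1 : ℕ) : ℝ) ^ 2 / (2 * m).factorial) *
        (((2 ^ (m - 1) : ℕ) : ℝ) ^ 2 / (2 * m).factorial) := by push_cast; field_simp
    _ ≤ _ := mul_le_mul h1 h2 (by positivity) (le_trans (by positivity) h1)

end Pool.Agent.Results.MP_64a7c6_pr.Sums
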